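import Pool.Agent.K3h16.MI.Stm
import Pool.Agent.Y813.RL.HI

/-!
# Project MI (helper16), brick OFF (helper48): the kernel away from the diagonal
-/

set_option autoImplicit false

open MeasureTheory Set Filter Topology

namespace Pool.Agent.K3h48.MI

open Pool.Agent.K3h16.MI

lemma slice {X : Type*} [TopologicalSpace X] {K : Set X} {f : ℂ → X → ℂ}
    (h : ContinuousOn (fun q : ℂ × X => f q.1 q.2) (univ ×ˢ K)) (z : ℂ) :
    ContinuousOn (f z) K := by
  have h1 : ContinuousOn (fun x : X => ((z, x) : ℂ × X)) K :=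
    (Continuous.prodMk_right z).continuousOn
  exact h.comp h1 fun x hx => ⟨mem_univ _, hx⟩

theorem t_OFF : S_CONT → S_FIN → S_OFF := by
  intro hCONT hFIN m n M e v hM c w δ hδ hc hcz hw hw0 α
  have hfin : IsFiniteMeasure v := hFIN m n M e v hM
  have hMc : IsCompact M := hM.compact
  have hMm : MeasurableSet M := hMc.isClosed.measurableSet
  have hrestr : v.restrict M = v := by
    apply Measure.restrict_eq_self_of_ae_mem
    rw [ae_iff]
    exact hM.vol_compl
  set k : E n × E n → ℝ := fun p =>
    kdet α (e p.1) (e p.2) (p.1 - p.2) * ‖p.1 - p.2‖ ^ (1 : ℝ) with hk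
  have hkc : ContinuousOn k (M ×ˢ M) := hCONT m n M e v hM α 1 one_pos
  set ν : E n × E n → ℝ := fun p => max ‖p.1 - p.2‖ δ with hν
  have hνpos : ∀ p, 0 < ν p := fun p => lt_max_of_lt_right hδ
  have hνc : Continuous ν := by
    rw [hν]
    exact ((continuous_fst.sub continuous_snd).norm).max continuous_const
  have hlogc : Continuous fun p => Real.log (ν p) := hνc.log fun p => (hνpos p).ne'
  set f : ℂ → E n × E n → ℂ := fun z p =>
    (w p.1 p.2 : ℂ) * c z p.1 p.2 * ((k p : ℝ) : ℂ) *
      Complex.exp ((z - 1) * ((Real.log (ν p) : ℝ) : ℂ)) with hf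
  have hsnd : ContinuousOn (fun q : ℂ × (E n × E n) => q.2) (univ ×ˢ (M ×ˢ M)) :=
    continuous_snd.continuousOn
  have hmaps : MapsTo (fun q : ℂ × (E n × E n) => q.2) (univ ×ˢ (M ×ˢ M)) (M ×ˢ M) :=
    fun q hq => hq.2
  have hfc : ContinuousOn (fun q : ℂ × (E n × E n) => f q.1 q.2) (univ ×ˢ (M ×ˢ M)) := by
    rw [hf]
    refine ((((Complex.continuous_ofReal.comp_continuousOn (hw.comp hsnd hmaps))).mul
      hc).mul (Complex.continuous_ofReal.comp_continuousOn (hkc.comp hsnd hmaps))).mul ?_
    refine Continuous.continuousOn ?_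
    exact Complex.continuous_exp.comp ((continuous_fst.sub continuous_const).mul
      (Complex.continuous_ofReal.comp (hlogc.comp continuous_snd)))
  have hfd : ∀ p ∈ M ×ˢ M, DifferentiableOn ℂ (fun z => f z p) univ := by
    intro p hp
    have h1 : Differentiable ℂ (fun z => c z p.1 p.2) := hcz p.1 hp.1 p.2 hp.2
    rw [hf]
    refine Differentiable.differentiableOn ?_
    refine (((differentiable_const _).mul h1).mul (differentiable_const _)).mul ?_
    exact ((differentiable_id.sub_const 1).mul_const _).cexp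
  have hKc : IsCompact (M ×ˢ M) := hMc.prod hMc
  have hKm : MeasurableSet (M ×ˢ M) := hMm.prod hMm
  have hB := Pool.Agent.Y813.RL.differentiableOn_setIntegral (v.prod v) hKc hKm
    (measure_lt_top _ _) isOpen_univ hfc hfd
  have hpm : Differentiable ℂ (pm m) := by
    have h1 : pm m = fun z : ℂ => ∏ j ∈ Finset.range (m + 1), (z + (m : ℂ) + (j : ℂ)) := rfl
    rw [h1]
    refine Differentiable.fun_finsetProd fun j _ => ?_
    exact (differentiable_id.add_const _).add_const _
  have hfs : ∀ z : ℂ, ContinuousOn (f z) (M ×ˢ M) := fun z => slice hfc z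
  refine ⟨fun z => pm m z * ∫ p in M ×ˢ M, f z p ∂(v.prod v), ?_, ?_, ?_⟩
  · exact hpm.differentiableOn.mul (hB.mono (subset_univ _))
  · intro _
    have h1 : pm m (-(2 * (m : ℂ))) = 0 := by
      have h2 : pm m (-(2 * (m : ℂ))) =
        ∏ j ∈ Finset.range (m + 1), (-(2 * (m : ℂ)) + m + j) := rfl
      rw [h2]
      refine Finset.prod_eq_zero (i := m) (Finset.mem_range.2 (Nat.lt_succ_self m)) ?_
      ring
    simp only [h1, zero_mul]
  · intro s hs
    congr 1
    have hint : IntegrableOn (f s) (M ×ˢ M) (v.prod v) :=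
      (hfs s).integrableOn_compact hKc
    have h1 : J α e v (fun x y => (w x y : ℂ) * c s x y) s =
        ∫ x in M, ∫ y in M, f s (x, y) ∂v ∂v := by
      unfold J
      conv_lhs => rw [← hrestr]
      refine setIntegral_congr_fun hMm fun x hx => ?_
      refine setIntegral_congr_fun hMm fun y hy => ?_
      simp only [hf, hk]
      by_cases h0 : w x y = 0
      · simp [h0]
      · have hd : δ ≤ ‖x - y‖ := by
          by_contra hlt
          exact h0 (hw0 x hx y hy (not_le.1 hlt))
        have hpos : 0 < ‖x - y‖ := lt_of_lt_of_le hδ hd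
        have hνe : ν (x, y) = ‖x - y‖ := max_eq_left hd
        rw [hνe]
        have h2 : Complex.exp (((s : ℂ) - 1) * ((Real.log ‖x - y‖ : ℝ) : ℂ)) =
            ((‖x - y‖ ^ (s - 1) : ℝ) : ℂ) := by
          rw [Real.rpow_def_of_pos hpos, Complex.ofReal_exp]
          congr 1
          push_cast
          ring
        rw [h2]
        have h3 : ‖x - y‖ ^ s = ‖x - y‖ ^ (1 : ℝ) * ‖x - y‖ ^ (s - 1) := by
          rw [← Real.rpow_add hpos]
          congr 1
          ring
        rw [h3]
        push_cast
        ring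
    refine h1.trans ?_
    exact (setIntegral_prod _ hint).symm

end Pool.Agent.K3h48.MI
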